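import Mathlib
import Pool.Agent.H117R2.UC.Defs

set_option autoImplicit false

/-!
Task T11: the pair inequality `psi`, from the algebraic inequality `pairI`.
-/

namespace Pool.Agent.H18R2.UC
open Real Finset Pool.Agent.H117R2.UC

/-- `-log S ≥ (1 - S^2)/2` -/
theorem neg_log_ge {S : ℝ} (hS : 0 < S) : (1 - S ^ 2) / 2 ≤ -log S := by
  have h := Real.log_le_sub_one_of_pos (pow_pos hS 2)
  rw [Real.log_pow] at h
  push_cast at h
  linarith

/-- Degenerate case. -/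
theorem Gk_one_one : Gk 1 1 = 0 := by
  simp [Gk]

theorem Gk_le {p q : ℝ} (hp0 : 0 ≤ p) (hp1 : p ≤ 1) (hq0 : 0 ≤ q) (hq1 : q ≤ 1) :
    Gk p q ≤ 5 * (1 - p * q) := by
  have hb0 : 0 ≤ p * q := mul_nonneg hp0 hq0
  have hb1 : p * q ≤ 1 := mul_le_one₀ hp1 hq0 hq1
  rcases eq_or_lt_of_le hb1 with h | h
  · have hp : p = 1 := by nlinarith
    have hq : q = 1 := by nlinarith
    subst hp; subst hq
    simp [Gk]
  · have hd : 0 < 1 - p * q := by linarith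
    have hu0 : 0 ≤ p + q - 2 * (p * q) := by nlinarith
    have hu1 : p + q - 2 * (p * q) ≤ 1 - p * q := by nlinarith
    have h1 : (1 - 2 * (p * q)) * (p + q - 2 * (p * q)) ^ 2 / (1 - p * q) ≤ 1 - p * q := by
      rw [div_le_iff₀ hd]
      have h2 : (p + q - 2 * (p * q)) ^ 2 ≤ (1 - p * q) ^ 2 := by
        apply pow_le_pow_left₀ hu0 hu1
      nlinarith [sq_nonneg (p + q - 2 * (p * q)), mul_nonneg hb0 (sq_nonneg (p + q - 2 * (p * q)))]
    have h2 : 4 * (p * q) * (1 - p * q) ≤ 4 * (1 - p * q) := by nlinarith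
    have h3 := sq_nonneg ((p ^ 2 * (1 - q) ^ 2 + q ^ 2 * (1 - p) ^ 2) / (1 - p * q))
    have h4 := sq_nonneg (max 0 (1 / 2 + 3 / 2 * (p * q) - p - q) / (1 - p * q))
    unfold Gk
    linarith

theorem deg {p q S : ℝ} (hp0 : 0 ≤ p) (hp1 : p ≤ 1) (hq0 : 0 ≤ q) (hq1 : q ≤ 1)
    (hS : S = √(p * q)) (hS0 : 0 < S) {σ : ℝ} (hσ : σ = 0 ∨ σ = 1) :
    σ * (433 / 10000) * (Gk p q / 2) ≤ -log S := by
  have hb0 : 0 ≤ p * q := mul_nonneg hp0 hq0
  have hb1 : p * q ≤ 1 := mul_le_one₀ hp1 hq0 hq1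
  have h1 := neg_log_ge hS0
  have h2 : S ^ 2 = p * q := by rw [hS]; exact Real.sq_sqrt hb0
  rw [h2] at h1
  have h3 := Gk_le hp0 hp1 hq0 hq1
  rcases hσ with rfl | rfl
  · linarith
  · linarith

theorem psi
    (pairI : ∀ (x y p q Z : ℝ), 0 ≤ x → x ≤ 1 → 0 ≤ y → y ≤ 1 →
      0 ≤ p → p ≤ 1 → 0 ≤ q → q ≤ 1 → x * y < 1 → p * q < 1 → 0 ≤ Z →
      19 * (x * y - p * q) ^ 2 ≤ Z * ((x * y + p * q) * (2 - x * y - p * q)) →
      ((x + y - 2 * (x * y)) - (p + q - 2 * (p * q))) ^ 2 ≤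
      Z + ((x ^ 2 * (1 - y) ^ 2 + y ^ 2 * (1 - x) ^ 2) / (1 - x * y)
            - (p ^ 2 * (1 - q) ^ 2 + q ^ 2 * (1 - p) ^ 2) / (1 - p * q)) ^ 2
        + (max 0 (1 / 2 + 3 / 2 * (x * y) - x - y) / (1 - x * y)) ^ 2
        + (max 0 (1 / 2 + 3 / 2 * (p * q) - p - q) / (1 - p * q)) ^ 2)
    {x y p q S R1 R2 R3 R4 : ℝ} (hx0 : 0 ≤ x) (hx1 : x ≤ 1) (hy0 : 0 ≤ y) (hy1 : y ≤ 1)
    (hp0 : 0 ≤ p) (hp1 : p ≤ 1) (hq0 : 0 ≤ q) (hq1 : q ≤ 1)
    (hS : S = √(x * y * (p * q)) + √((1 - x * y) * (1 - p * q))) (hS0 : 0 < S)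
    (h1 : R1 = √(x * y * (p * q)) + x * (1 - y) * (p * (1 - q)) / √((1 - x * y) * (1 - p * q)))
    (h2 : R2 = √(x * y * (p * q)) + x * (1 - y) * (q * (1 - p)) / √((1 - x * y) * (1 - p * q)))
    (h3 : R3 = √(x * y * (p * q)) + y * (1 - x) * (p * (1 - q)) / √((1 - x * y) * (1 - p * q)))
    (h4 : R4 = √(x * y * (p * q)) + y * (1 - x) * (q * (1 - p)) / √((1 - x * y) * (1 - p * q)))
    {σ : ℝ} (hσ : σ = 0 ∨ σ = 1) :
    σ * (433 / 10000) * ((Gk x y + Gk p q) / 2) ≤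
      -log S + log 2 / 16 * (R1 / S * (1 - R1 / S) + R2 / S * (1 - R2 / S)
        + R3 / S * (1 - R3 / S) + R4 / S * (1 - R4 / S)) := by
  have ha0 : 0 ≤ x * y := mul_nonneg hx0 hy0
  have ha1 : x * y ≤ 1 := mul_le_one₀ hx1 hy0 hy1
  have hb0 : 0 ≤ p * q := mul_nonneg hp0 hq0
  have hb1 : p * q ≤ 1 := mul_le_one₀ hp1 hq0 hq1
  rcases eq_or_lt_of_le ha1 with hae | ha
  · have hx : x = 1 := by nlinarith
    have hy : y = 1 := by nlinarith
    subst hx; subst hy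
    simp only [one_mul, sub_self, zero_mul, Real.sqrt_zero, add_zero, div_zero,
      mul_zero] at hS h1 h2 h3 h4
    rw [← hS] at h1 h2 h3 h4
    have hSS : S / S = 1 := div_self hS0.ne'
    rw [h1, h2, h3, h4, hSS, Gk_one_one]
    have := deg hp0 hp1 hq0 hq1 hS hS0 hσ
    simp only [sub_self, mul_zero, add_zero, zero_add]
    exact this
  rcases eq_or_lt_of_le hb1 with hbe | hb
  · have hx : p = 1 := by nlinarith
    have hy : q = 1 := by nlinarith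
    subst hx; subst hy
    simp only [mul_one, sub_self, mul_zero, Real.sqrt_zero, add_zero, div_zero] at hS h1 h2 h3 h4
    rw [← hS] at h1 h2 h3 h4
    have hSS : S / S = 1 := div_self hS0.ne'
    rw [h1, h2, h3, h4, hSS, Gk_one_one]
    have := deg hx0 hx1 hy0 hy1 hS hS0 hσ
    simp only [sub_self, mul_zero, add_zero]
    exact this
  -- main case
  set a := x * y with ha_def
  set b := p * q with hb_def
  have hA : 0 < 1 - a := by linarith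
  have hB : 0 < 1 - b := by linarith
  set c := √(a * b) with hc_def
  set d := √((1 - a) * (1 - b)) with hd_def
  have hc0 : 0 ≤ c := Real.sqrt_nonneg _
  have hd0 : 0 < d := Real.sqrt_pos.mpr (mul_pos hA hB)
  have hc2 : c ^ 2 = a * b := Real.sq_sqrt (mul_nonneg ha0 hb0)
  have hd2 : d ^ 2 = (1 - a) * (1 - b) := Real.sq_sqrt (mul_pos hA hB).le
  -- zbar
  have hZb : (a - b) ^ 2 ≤ (1 - S ^ 2) * ((a + b) * (2 - a - b)) := by
    rw [hS]
    have key := sq_nonneg (c * (2 - a - b) - d * (a + b))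
    have e1 : (c * (2 - a - b) - d * (a + b)) ^ 2 =
      c ^ 2 * (2 - a - b) ^ 2 - 2 * c * d * (2 - a - b) * (a + b) + d ^ 2 * (a + b) ^ 2 := by ring
    rw [e1, hc2, hd2] at key
    have e2 : (1 - (c + d) ^ 2) = 1 - c ^ 2 - d ^ 2 - 2 * c * d := by ring
    rw [e2, hc2, hd2]
    linarith
  have hS1 : S ^ 2 ≤ 1 := by
    have e2 : S ^ 2 = c ^ 2 + d ^ 2 + 2 * (c * d) := by rw [hS]; ring
    have h5 : c * d ≤ (a * (1 - a) + b * (1 - b)) / 2 := by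
      have h6 : (c * d) ^ 2 = (a * (1 - a)) * (b * (1 - b)) := by
        rw [mul_pow, hc2, hd2]; ring
      have h7 : 0 ≤ a * (1 - a) := mul_nonneg ha0 hA.le
      have h8 : 0 ≤ b * (1 - b) := mul_nonneg hb0 hB.le
      apply abs_le_of_sq_le_sq' _ (by positivity) |>.2
      rw [h6]
      have h9 := sq_nonneg (a * (1 - a) - b * (1 - b))
      linarith
    rw [e2, hc2, hd2]
    have h9 := sq_nonneg (a - b)
    linarith
  have hS1' : S ≤ 1 := by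
    by_contra hcon
    push Not at hcon
    have : 1 < S ^ 2 := by
      have := mul_lt_mul'' hcon hcon zero_le_one zero_le_one
      rw [sq]; linarith
    linarith
  have hlog : (1 - S ^ 2) / 2 ≤ -log S := neg_log_ge hS0
  -- the products
  have hx' : 0 ≤ 1 - x := by linarith
  have hy' : 0 ≤ 1 - y := by linarith
  have hp' : 0 ≤ 1 - p := by linarith
  have hq' : 0 ≤ 1 - q := by linarith
  obtain ⟨e, he⟩ : ∃ e, e = x * (1 - y) := ⟨_, rfl⟩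
  obtain ⟨f, hf⟩ : ∃ f, f = y * (1 - x) := ⟨_, rfl⟩
  obtain ⟨g, hg⟩ : ∃ g, g = p * (1 - q) := ⟨_, rfl⟩
  obtain ⟨k, hk⟩ : ∃ k, k = q * (1 - p) := ⟨_, rfl⟩
  have he0 : 0 ≤ e := he ▸ mul_nonneg hx0 hy'
  have hf0 : 0 ≤ f := hf ▸ mul_nonneg hy0 hx'
  have hg0 : 0 ≤ g := hg ▸ mul_nonneg hp0 hq'
  have hk0 : 0 ≤ k := hk ▸ mul_nonneg hq0 hp'
  have he1 : e ≤ 1 - a := by
    have : e = x - a := by rw [he, ha_def]; ring
    linarith
  have hf1 : f ≤ 1 - a := by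
    have : f = y - a := by rw [hf, ha_def]; ring
    linarith
  have hg1 : g ≤ 1 - b := by
    have : g = p - b := by rw [hg, hb_def]; ring
    linarith
  have hk1 : k ≤ 1 - b := by
    have : k = q - b := by rw [hk, hb_def]; ring
    linarith
  rw [← he, ← hg] at h1
  rw [← he, ← hk] at h2
  rw [← hf, ← hg] at h3
  rw [← hf, ← hk] at h4
  have hz : ∀ e g R : ℝ, 0 ≤ e → 0 ≤ g → e ≤ 1 - a → g ≤ 1 - b → R = c + e * g / d →
      0 ≤ R / S * (1 - R / S) := by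
    intro e g R he0 hg0 he1 hg1 hR
    have hR0 : 0 ≤ R := by rw [hR]; positivity
    have hR1 : R ≤ S := by
      rw [hR, hS]
      have : e * g / d ≤ d := by
        rw [div_le_iff₀ hd0, ← sq, hd2]
        exact mul_le_mul he1 hg1 hg0 hA.le
      linarith
    have h5 : R / S ≤ 1 := (div_le_one hS0).mpr hR1
    have h6 : 0 ≤ R / S := div_nonneg hR0 hS0.le
    exact mul_nonneg h6 (by linarith)
  have hz1 := hz e g R1 he0 hg0 he1 hg1 h1
  have hz2 := hz e k R2 he0 hk0 he1 hk1 h2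
  have hz3 := hz f g R3 hf0 hg0 hf1 hg1 h3
  have hz4 := hz f k R4 hf0 hk0 hf1 hk1 h4
  obtain ⟨W, hW⟩ : ∃ W, W = R1 / S * (1 - R1 / S) + R2 / S * (1 - R2 / S)
        + R3 / S * (1 - R3 / S) + R4 / S * (1 - R4 / S) := ⟨_, rfl⟩
  have hW0 : 0 ≤ W := by rw [hW]; linarith
  rw [← hW]
  have hl2a : (0.6931471803 : ℝ) < log 2 := Real.log_two_gt_d9
  have hl2b : log 2 < (0.6931471808 : ℝ) := Real.log_two_lt_d9
  have hlogS : 0 ≤ -log S := by
    have := Real.log_nonpos hS0.le hS1'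
    linarith
  have hL0 : 0 ≤ -log S + log 2 / 16 * W := by positivity
  rcases hσ with rfl | rfl
  · simpa using hL0
  by_cases hG : Gk x y + Gk p q < 0
  · linarith
  push Not at hG
  -- the main inequality
  obtain ⟨P, hP⟩ : ∃ P, P = (e ^ 2 + f ^ 2) / (1 - a) := ⟨_, rfl⟩
  obtain ⟨P', hP'⟩ : ∃ P', P' = (g ^ 2 + k ^ 2) / (1 - b) := ⟨_, rfl⟩
  obtain ⟨Q, hQ⟩ : ∃ Q, Q = (d - c) ^ 2 - (1 - c / d) * ((e + f) * (g + k)) + P * P' := ⟨_, rfl⟩
  have hPP : P * P' = (e ^ 2 + f ^ 2) * (g ^ 2 + k ^ 2) / d ^ 2 := by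
    rw [hP, hP', hd2]; field_simp
  have hWQ : W * S ^ 2 = S ^ 2 - Q := by
    have e1 : W * S ^ 2 = S * (R1 + R2 + R3 + R4) - (R1 ^ 2 + R2 ^ 2 + R3 ^ 2 + R4 ^ 2) := by
      rw [hW]
      field_simp
      ring
    rw [e1, hQ, hPP, h1, h2, h3, h4, hS]
    field_simp
    ring
  have hQS : Q ≤ S ^ 2 := by
    have : 0 ≤ W * S ^ 2 := by positivity
    linarith
  -- W ≥ 1 - Q - (1 - S^2)
  have hWge : S ^ 2 - Q ≤ W := by
    have : W * S ^ 2 ≤ W * 1 := mul_le_mul_of_nonneg_left hS1 hW0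
    linarith
  -- roots
  obtain ⟨v, hv⟩ : ∃ v, v = (e + f) * √(a / (1 - a)) := ⟨_, rfl⟩
  obtain ⟨v', hv'⟩ : ∃ v', v' = (g + k) * √(b / (1 - b)) := ⟨_, rfl⟩
  have hv2 : v ^ 2 = (e + f) ^ 2 * (a / (1 - a)) := by
    rw [hv, mul_pow, Real.sq_sqrt (div_nonneg ha0 hA.le)]
  have hv2' : v' ^ 2 = (g + k) ^ 2 * (b / (1 - b)) := by
    rw [hv', mul_pow, Real.sq_sqrt (div_nonneg hb0 hB.le)]
  have hvv : v * v' = (e + f) * (g + k) * (c / d) := by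
    have : √(a / (1 - a)) * √(b / (1 - b)) = c / d := by
      rw [← Real.sqrt_mul (div_nonneg ha0 hA.le), div_mul_div_comm,
        Real.sqrt_div (mul_nonneg ha0 hb0)]
    rw [hv, hv', ← this]; ring
  have hef : x + y - 2 * a = e + f := by rw [he, hf, ha_def]; ring
  have hgk : p + q - 2 * b = g + k := by rw [hg, hk, hb_def]; ring
  have hef2 : x ^ 2 * (1 - y) ^ 2 + y ^ 2 * (1 - x) ^ 2 = e ^ 2 + f ^ 2 := by rw [he, hf]; ring
  have hgk2 : p ^ 2 * (1 - q) ^ 2 + q ^ 2 * (1 - p) ^ 2 = g ^ 2 + k ^ 2 := by rw [hg, hk]; ring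
  have hpair := pairI x y p q (19 * (1 - S ^ 2)) hx0 hx1 hy0 hy1 hp0 hp1 hq0 hq1 ha hb
    (by linarith) (by
      rw [← ha_def, ← hb_def]
      calc 19 * (a - b) ^ 2 ≤ 19 * ((1 - S ^ 2) * ((a + b) * (2 - a - b))) := by linarith
        _ = 19 * (1 - S ^ 2) * ((a + b) * (2 - a - b)) := by ring)
  rw [← ha_def, ← hb_def, hef, hgk, hef2, hgk2, ← hP, ← hP'] at hpair
  obtain ⟨w, hw⟩ : ∃ w, w = max 0 (1 / 2 + 3 / 2 * a - x - y) / (1 - a) := ⟨_, rfl⟩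
  obtain ⟨w', hw'⟩ : ∃ w', w' = max 0 (1 / 2 + 3 / 2 * b - p - q) / (1 - b) := ⟨_, rfl⟩
  rw [← hw, ← hw'] at hpair
  have hG1 : Gk x y = 4 * a * (1 - a) + ((e + f) ^ 2 - v ^ 2) - P ^ 2 - w ^ 2 := by
    rw [Gk, ← ha_def, hef, hef2, ← hP, ← hw, hv2]
    congr 3
    field_simp
    ring
  have hG2 : Gk p q = 4 * b * (1 - b) + ((g + k) ^ 2 - v' ^ 2) - P' ^ 2 - w' ^ 2 := by
    rw [Gk, ← hb_def, hgk, hgk2, ← hP', ← hw', hv2']
    congr 3
    field_simp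
    ring
  have hQ2 : Q = (d - c) ^ 2 - (e + f) * (g + k) + v * v' + P * P' := by
    rw [hQ, hvv]; ring
  have hSS : S ^ 2 = c ^ 2 + d ^ 2 + 2 * (c * d) := by rw [hS]; ring
  have hexact : 1 - Q - ((Gk x y + w ^ 2) + (Gk p q + w' ^ 2)) / 2 =
      2 * (a - b) ^ 2 - (1 - S ^ 2) - ((e + f) - (g + k)) ^ 2 / 2 + (v - v') ^ 2 / 2
        + (P - P') ^ 2 / 2 := by
    rw [hG1, hG2, hQ2, hSS]
    linear_combination (-2 : ℝ) * hc2 + (-2 : ℝ) * hd2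
  have hfin : (Gk x y + Gk p q) / 2 ≤ 1 - Q + 19 / 2 * (1 - S ^ 2) + (1 - S ^ 2) := by
    have s1 := sq_nonneg (a - b)
    have s2 := sq_nonneg (v - v')
    linarith
  -- conclusion
  have hz0 : 0 ≤ 1 - S ^ 2 := by linarith
  have hc1 : 1 * (433 / 10000) * ((Gk x y + Gk p q) / 2) ≤
      log 2 / 16 * ((Gk x y + Gk p q) / 2) := by
    apply mul_le_mul_of_nonneg_right _ (by linarith)
    norm_num at hl2a ⊢
    linarith
  have hc2' : log 2 / 16 * ((Gk x y + Gk p q) / 2) ≤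
      log 2 / 16 * (1 - Q + 19 / 2 * (1 - S ^ 2) + (1 - S ^ 2)) :=
    mul_le_mul_of_nonneg_left hfin (by positivity)
  have hc3 : log 2 / 16 * (1 - Q - (1 - S ^ 2)) ≤ log 2 / 16 * W :=
    mul_le_mul_of_nonneg_left (by linarith) (by positivity)
  have hc4 : log 2 / 16 * (23 / 2 * (1 - S ^ 2)) ≤ (1 - S ^ 2) / 2 := by
    have h7 : log 2 / 16 * (23 / 2) ≤ 1 / 2 := by norm_num at hl2b ⊢; linarith
    have h8 := mul_le_mul_of_nonneg_right h7 hz0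
    linarith
  have e5 : log 2 / 16 * (1 - Q + 19 / 2 * (1 - S ^ 2) + (1 - S ^ 2)) =
    log 2 / 16 * (1 - Q - (1 - S ^ 2)) + log 2 / 16 * (23 / 2 * (1 - S ^ 2)) := by ring
  linarith

end Pool.Agent.H18R2.UC
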